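import Pool.Agent.V11219.SetTietze

/-!
For every infinite compact Hausdorff space `Q` there is a compact Hausdorff space `P` such that
`P × Q` is not set-self-Tietze.
-/

namespace Pool.Agent.Results.MP_65e89e_gt.NotSetSelfTietze

open Set Topology Filter Pool.Agent.V11219.SetTietze

universe u

/-- A copy of the real numbers, endowed with the discrete topology. -/
def Disc : Type u := ULift.{u} ℝ

instance : TopologicalSpace Disc.{u} := ⊥

instance : DiscreteTopology Disc.{u} := ⟨rfl⟩

lemma uncountable_disc : ¬ Countable Disc.{u} := by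
  intro h
  have : Countable ℝ := (Equiv.ulift.{u} (α := ℝ)).symm.injective.countable (β := Disc.{u})
  exact Cardinal.not_countable_real (Set.countable_univ_iff.2 this)

/-- **Every infinite compact Hausdorff space `Q` is a factor of a compact Hausdorff space `P × Q`
that is not set-self-Tietze.** In particular not every compact Hausdorff space is
set-self-Tietze. -/
theorem result (Q : Type u) [TopologicalSpace Q] [CompactSpace Q] [T2Space Q] [Infinite Q] :
    ∃ (P : Type u) (_ : TopologicalSpace P), CompactSpace P ∧ T2Space P ∧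
      CompactSpace (P × Q) ∧ T2Space (P × Q) ∧ ¬ SetSelfTietze (P × Q) := by
  refine ⟨OnePoint Disc.{u}, inferInstance, inferInstance, inferInstance, inferInstance,
    inferInstance, ?_⟩
  refine not_setSelfTietze_prod_of_infinite (OnePoint.infty : OnePoint Disc.{u}) ?_
  intro V hV
  have h1 : ∀ n, {d : Disc.{u} | (d : OnePoint Disc.{u}) ∉ V n}.Finite := by
    intro n
    have h2 : (((↑) : Disc.{u} → OnePoint Disc.{u}) ⁻¹' (V n)) ∈ Filter.coclosedCompact Disc.{u} := by
      have := OnePoint.nhdsNE_infty_eq (X := Disc.{u})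
      have h3 : V n ∈ 𝓝[≠] (OnePoint.infty : OnePoint Disc.{u}) := mem_nhdsWithin_of_mem_nhds (hV n)
      rw [this] at h3
      exact h3
    rw [Filter.mem_coclosedCompact_iff] at h2
    exact h2.finite_of_discrete.subset fun d hd => subset_closure hd
  have h2 : (⋃ n, {d : Disc.{u} | (d : OnePoint Disc.{u}) ∉ V n}).Countable :=
    Set.countable_iUnion fun n => (h1 n).countable
  have h3 : ∃ d : Disc.{u}, d ∉ ⋃ n, {d : Disc.{u} | (d : OnePoint Disc.{u}) ∉ V n} := by
    by_contra h
    push Not at h
    apply uncountable_disc.{u}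
    rw [← Set.countable_univ_iff]
    exact h2.mono fun d _ => h d
  obtain ⟨d, hd⟩ := h3
  refine ⟨(d : OnePoint Disc.{u}), OnePoint.coe_ne_infty d, fun n => ?_⟩
  by_contra h
  exact hd (Set.mem_iUnion.2 ⟨n, h⟩)

end Pool.Agent.Results.MP_65e89e_gt.NotSetSelfTietze
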